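import Pool.Agent.E8helper50.SR.S

/-!
# Ideals of products of matrix algebras are generated by two elements (project SR, MP_1a662b_al)
-/

set_option autoImplicit false

universe u

namespace Pool.Agent.E8helper38.SR

open Pool.Agent.E8helper50.SR

theorem ind {P K : Type*} [Finite P] [DecidableEq P] [Field K] (lam : P → K)
    (hinj : Function.Injective lam) (h0 : ∀ p, lam p ≠ 0) (D : Set (P → K)) (hl : lam ∈ D)
    (hs : ∀ (c : K), ∀ f ∈ D, c • f ∈ D) (ha : ∀ f ∈ D, ∀ g ∈ D, f + g ∈ D)
    (hm : ∀ f ∈ D, ∀ g ∈ D, f * g ∈ D) (p : P) : (Pi.single p 1 : P → K) ∈ D := by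
  classical
  have : Fintype P := Fintype.ofFinite P
  have key : ∀ T : Finset P, p ∉ T → ∃ f ∈ D, f p ≠ 0 ∧ ∀ q ∈ T, f q = 0 := by
    intro T
    induction T using Finset.induction_on with
    | empty => exact fun _ => ⟨lam, hl, h0 p, fun q hq => absurd hq (Finset.notMem_empty q)⟩
    | insert q T hq ih =>
      intro hp
      rw [Finset.mem_insert, not_or] at hp
      obtain ⟨f, hf, hfp, hfT⟩ := ih hp.2
      refine ⟨f * (lam * lam + (-lam q) • lam), hm f hf _ (ha _ (hm _ hl _ hl) _ (hs _ _ hl)), ?_, ?_⟩
      · simp only [Pi.mul_apply, Pi.add_apply, Pi.smul_apply, smul_eq_mul]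
        refine mul_ne_zero hfp ?_
        have h1 : lam p * lam p + -lam q * lam p = (lam p - lam q) * lam p := by ring
        rw [h1]
        refine mul_ne_zero (sub_ne_zero.mpr ?_) (h0 p)
        intro h2
        exact hp.1 (hinj h2)
      · intro r hr
        simp only [Pi.mul_apply, Pi.add_apply, Pi.smul_apply, smul_eq_mul]
        rcases Finset.mem_insert.mp hr with rfl | hr
        · ring
        · rw [hfT r hr, zero_mul]
  obtain ⟨f, hf, hfp, hfT⟩ := key (Finset.univ.erase p) (Finset.notMem_erase p _)
  have h1 : (Pi.single p 1 : P → K) = (f p)⁻¹ • f := by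
    funext q
    simp only [Pi.smul_apply, smul_eq_mul]
    by_cases hq : q = p
    · subst hq
      rw [Pi.single_eq_same, inv_mul_cancel₀ hfp]
    · rw [Pi.single_eq_of_ne hq, hfT q (Finset.mem_erase.mpr ⟨hq, Finset.mem_univ q⟩), mul_zero]
  rw [h1]
  exact hs _ _ hf

variable {K : Type u} [Field K] {m : ℕ} {d : Fin m → ℕ}

/-- the matrix units -/
noncomputable def e (i : Fin m) (k l : Fin (d i)) : ∀ i : Fin m, Matrix (Fin (d i)) (Fin (d i)) K :=
  Pi.single i (Matrix.single k l 1)

theorem mem_of (V : Submodule K (∀ i : Fin m, Matrix (Fin (d i)) (Fin (d i)) K))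
    (x : ∀ i : Fin m, Matrix (Fin (d i)) (Fin (d i)) K)
    (h : ∀ i k l, x i k l ≠ 0 → e i k l ∈ V) : x ∈ V := by
  classical
  rw [← Finset.univ_sum_single x]
  refine Submodule.sum_mem _ fun i _ => ?_
  have h1 : x i ∈ V.comap (LinearMap.single K (fun i : Fin m => Matrix (Fin (d i)) (Fin (d i)) K) i) := by
    rw [Matrix.matrix_eq_sum_single (x i)]
    refine Submodule.sum_mem _ fun k _ => Submodule.sum_mem _ fun l _ => ?_
    by_cases h2 : x i k l = 0
    · rw [h2, Matrix.single_zero]
      exact Submodule.zero_mem _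
    · have h3 : Matrix.single k l (x i k l) = (x i k l) • Matrix.single k l (1 : K) := by
        rw [Matrix.smul_single, smul_eq_mul, mul_one]
      rw [h3]
      refine Submodule.smul_mem _ _ ?_
      rw [Submodule.mem_comap]
      exact h i k l h2
  rw [Submodule.mem_comap] at h1
  exact h1

theorem single_mul_mul (i : Fin m) (A B : Matrix (Fin (d i)) (Fin (d i)) K)
    (z : ∀ i : Fin m, Matrix (Fin (d i)) (Fin (d i)) K) :
    (Pi.single i A : ∀ i : Fin m, Matrix (Fin (d i)) (Fin (d i)) K) * z * Pi.single i B =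
      Pi.single i (A * z i * B) := by
  funext j
  by_cases hj : j = i
  · subst hj
    simp
  · simp [Pi.single_eq_of_ne hj]

theorem t_MAT : S_MAT.{u} := by
  classical
  intro K _ _ m d I hI
  -- eigenvalues
  obtain ⟨lam, hinj, hlam0⟩ : ∃ lam : (Σ i : Fin m, Fin (d i)) → K,
      Function.Injective lam ∧ ∀ p, lam p ≠ 0 := by
    have hinf : Infinite {x : K // x ≠ 0} := by
      have : Infinite (({0} : Set K)ᶜ : Set K) :=
        (Set.finite_singleton (0 : K)).infinite_compl.to_subtype
      exact this
    let f : (Σ i : Fin m, Fin (d i)) ↪ {x : K // x ≠ 0} :=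
      ((Fintype.equivFin _).toEmbedding.trans Fin.valEmbedding).trans (Infinite.natEmbedding _)
    exact ⟨fun p => (f p).1, fun a b hab => f.injective (Subtype.ext hab), fun p => (f p).2⟩
  -- the blocks
  let S : Set (Fin m) := {i | ∃ z ∈ I, z i ≠ 0}
  have hIS : ∀ i ∈ S, ∀ a b : Fin (d i), e i a b ∈ I := by
    rintro i ⟨z, hz, hzi⟩ a b
    obtain ⟨k, l, hkl⟩ : ∃ k l, z i k l ≠ 0 := by
      by_contra hcon
      push Not at hcon
      exact hzi (Matrix.ext hcon)
    have h1 : (e i a k * z * e i l b : ∀ i : Fin m, Matrix (Fin (d i)) (Fin (d i)) K) ∈ I :=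
      (hI _ _ (hI _ z hz).1).2
    unfold e at h1
    rw [single_mul_mul, Matrix.single_mul_mul_single, one_mul, mul_one] at h1
    have h2 : e i a b = (z i k l)⁻¹ • (Pi.single i (Matrix.single a b (z i k l)) :
        ∀ i : Fin m, Matrix (Fin (d i)) (Fin (d i)) K) := by
      unfold e
      rw [← Pi.single_smul, Matrix.smul_single, smul_eq_mul, inv_mul_cancel₀ hkl]
    rw [h2]
    exact Submodule.smul_mem _ _ h1
  have hIout : ∀ x ∈ I, ∀ i, i ∉ S → x i = 0 := by
    intro x hx i hi
    by_contra hcon
    exact hi ⟨x, hx, hcon⟩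
  have hIin : ∀ x : ∀ i : Fin m, Matrix (Fin (d i)) (Fin (d i)) K, (∀ i, i ∉ S → x i = 0) →
      x ∈ I := by
    intro x hx
    refine mem_of I x fun i k l hne => ?_
    by_cases hi : i ∈ S
    · exact hIS i hi k l
    · exfalso
      apply hne
      rw [hx i hi]
      rfl
  let diag : ((Σ i : Fin m, Fin (d i)) → K) → ∀ i : Fin m, Matrix (Fin (d i)) (Fin (d i)) K :=
    fun f i => if i ∈ S then Matrix.diagonal (fun k => f ⟨i, k⟩) else 0
  let b2 : ∀ i : Fin m, Matrix (Fin (d i)) (Fin (d i)) K :=
    fun i => if i ∈ S then Matrix.of (fun _ _ => 1) else 0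
  have hd1 : diag lam ∈ I := hIin _ fun i hi => if_neg hi
  have hb2 : b2 ∈ I := hIin _ fun i hi => if_neg hi
  refine ⟨diag lam, hd1, b2, hb2, ?_⟩
  have hadd : ∀ f g, diag (f + g) = diag f + diag g := by
    intro f g
    funext i
    simp only [diag, Pi.add_apply]
    split_ifs
    · rw [Matrix.diagonal_add]
    · rw [add_zero]
  have hsmul : ∀ (c : K) f, diag (c • f) = c • diag f := by
    intro c f
    funext i
    simp only [diag, Pi.smul_apply]
    split_ifs
    · rw [← Matrix.diagonal_smul]
      rfl
    · rw [smul_zero]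
  have hmul : ∀ f g, diag (f * g) = diag f * diag g := by
    intro f g
    funext i
    simp only [diag, Pi.mul_apply]
    split_ifs
    · rw [Matrix.diagonal_mul_diagonal]
    · rw [mul_zero]
  have hmem1 : diag lam ∈ NonUnitalAlgebra.adjoin K {diag lam, b2} :=
    NonUnitalAlgebra.subset_adjoin K (by simp)
  have hmem2 : b2 ∈ NonUnitalAlgebra.adjoin K {diag lam, b2} :=
    NonUnitalAlgebra.subset_adjoin K (by simp)
  have hdiag : ∀ i ∈ S, ∀ k : Fin (d i),
      e i k k ∈ NonUnitalAlgebra.adjoin K {diag lam, b2} := by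
    intro i hi k
    have h1 := ind lam hinj hlam0 {f | diag f ∈ NonUnitalAlgebra.adjoin K {diag lam, b2}} hmem1
      (fun c f hf => by
        rw [Set.mem_setOf_eq, hsmul]
        exact SMulMemClass.smul_mem c hf)
      (fun f hf g hg => by
        rw [Set.mem_setOf_eq, hadd]
        exact add_mem hf hg)
      (fun f hf g hg => by
        rw [Set.mem_setOf_eq, hmul]
        exact mul_mem hf hg) ⟨i, k⟩
    rw [Set.mem_setOf_eq] at h1
    have h2 : diag (Pi.single ⟨i, k⟩ 1) = e i k k := by
      funext j
      by_cases hj : j = i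
      · subst hj
        simp only [diag, if_pos hi, e, Pi.single_eq_same]
        ext a b
        rw [Matrix.diagonal_apply, Matrix.single_apply]
        by_cases hab : a = b
        · subst hab
          rw [if_pos rfl]
          by_cases hak : a = k
          · subst hak
            simp
          · rw [if_neg (by tauto), Pi.single_eq_of_ne]
            intro h
            apply hak
            simpa using h
        · rw [if_neg hab, if_neg]
          rintro ⟨rfl, rfl⟩
          exact hab rfl
      · simp only [diag, e, Pi.single_eq_of_ne hj]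
        split_ifs
        · ext a b
          rw [Matrix.diagonal_apply]
          split_ifs
          · rw [Pi.single_eq_of_ne]
            · rfl
            · intro h
              exact hj (congrArg Sigma.fst h)
          · rfl
        · rfl
    rw [← h2]
    exact h1
  have hall : ∀ i ∈ S, ∀ k l : Fin (d i),
      e i k l ∈ NonUnitalAlgebra.adjoin K {diag lam, b2} := by
    intro i hi k l
    have h1 := mul_mem (mul_mem (hdiag i hi k) hmem2) (hdiag i hi l)
    have h2 : (e i k k * b2 * e i l l : ∀ i : Fin m, Matrix (Fin (d i)) (Fin (d i)) K) =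
        e i k l := by
      unfold e
      rw [single_mul_mul, Matrix.single_mul_mul_single]
      simp [b2, if_pos hi]
    rw [← h2]
    exact h1
  intro x hx
  have h3 := mem_of (NonUnitalAlgebra.adjoin K {diag lam, b2}).toSubmodule x fun i k l hne => by
    by_cases hi : i ∈ S
    · exact hall i hi k l
    · exfalso
      apply hne
      rw [hIout x hx i hi]
      rfl
  exact h3

end Pool.Agent.E8helper38.SR
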